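import Pool.Agent.L7h65.TN.Stm
import Pool.Agent.H622R3.SM.T_LEN

set_option autoImplicit false

/-!
# Totally nonnegative matrices: the length of the program
-/

namespace Pool.Agent.L7h97.TN

open Pool.Agent.NPC Pool.Agent.H558R2 Pool.Agent.H622R3.SM Pool.Agent.W920.FC Pool.Agent.L7h61.CH
open Pool.Agent.L7h65.TN

/-- A `flatMap` of lists of bounded lengths. -/
lemma flat_le {α β : Type} (l : List α) (f : α → List β) (B : ℕ) (h : ∀ x ∈ l, (f x).length ≤ B) :
    (l.flatMap f).length ≤ l.length * B := by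
  induction l with
  | nil => simp
  | cons a l ih =>
    rw [List.flatMap_cons, List.length_append, List.length_cons]
    have h1 := h a (by simp)
    have h2 := ih fun x hx => h x (List.mem_cons_of_mem _ hx)
    nlinarith

lemma len_numP (K : ℕ) : (numP K).length = K + 1 := by simp [numP]

lemma len_powP (p t : ℕ) : (powP p t).length = p + 1 := by simp [powP]

lemma len_uP (m n : ℕ) (σ : List Bool) : (uP m n σ).length ≤ (n + m) * n := by
  unfold uP
  refine (flat_le _ _ n fun c _ => ?_).trans ?_
  · simp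
  · simp

lemma len_rP (m n t : ℕ) : (rP m n t).length ≤ (n + m) * (n * ((n + m) * 2 + 1)) := by
  unfold rP
  refine (flat_le _ _ (n * ((n + m) * 2 + 1)) fun a _ => ?_).trans ?_
  · refine (flat_le _ _ ((n + m) * 2 + 1) fun j _ => ?_).trans ?_
    · rw [List.length_cons]
      have := flat_le (List.range (n + m)) (fun c =>
        [(⟨Op.mul, [63, t, a, j, c], [61, t, xp m n a c], [62, c, j]⟩ : Instr),
          ⟨Op.add, [64, t, a, j, c + 1], [64, t, a, j, c], [63, t, a, j, c]⟩]) 2
          (fun c _ => by simp)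
      rw [List.length_range] at this
      omega
    · simp
  · simp

lemma len_aP (m n : ℕ) (σ : List Bool) (t : ℕ) : (aP m n σ t).length ≤ mm m n * n := by
  unfold aP
  refine (flat_le _ _ n fun c _ => ?_).trans ?_
  · simp
  · simp

lemma len_bP (m n t : ℕ) : (bP m n t).length ≤ mm m n * 2 := by
  unfold bP
  refine (flat_le _ _ 2 fun c _ => ?_).trans ?_
  · unfold bI
    split_ifs <;> simp
  · simp

lemma len_minP (m n : ℕ) (R : Key) (t : ℕ) (hn : 1 ≤ n) :
    (minP m n R t).length ≤ 12 * mm m n ^ 4 := by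
  unfold minP
  rw [List.length_map]
  exact t_LEN _ _ _ _ (by unfold mm; omega)

lemma len_tP (m n : ℕ) (σ : List Bool) (R : Key) (t : ℕ) (hn : 1 ≤ n) :
    (tP m n σ R t).length ≤ mx m n + 1 + ((n + m) * (n * ((n + m) * 2 + 1)) +
      (mm m n * n + (mm m n * 2 + 12 * mm m n ^ 4))) := by
  unfold tP
  simp only [List.length_append]
  have h1 := len_powP (mx m n) t
  have h2 := len_rP m n t
  have h3 := len_aP m n σ t
  have h4 := len_bP m n t
  have h5 := len_minP m n R t hn
  omega

lemma len_difP (K : ℕ) : (difP K).length ≤ K + 1 + K * K := by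
  unfold difP
  rw [List.length_append, List.length_map, List.length_range]
  refine Nat.add_le_add_left ?_ _
  refine (flat_le _ _ K fun j _ => ?_).trans (by simp)
  refine (flat_le _ _ 1 fun t _ => ?_).trans (by simp)
  split_ifs <;> simp

/-- The bound for the length. -/
def lb (m n : ℕ) : ℕ :=
  kk m n + 1 + ((n + m) * n + ((kk m n + 1) * (mx m n + 1 + ((n + m) * (n * ((n + m) * 2 + 1)) +
      (mm m n * n + (mm m n * 2 + 12 * mm m n ^ 4)))) + (kk m n + 1 + kk m n * kk m n)))

lemma len_prg (m n : ℕ) (σ : List Bool) (R : Key) (hn : 1 ≤ n) :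
    (prg m n σ R).length ≤ lb m n := by
  unfold prg lb
  simp only [List.length_append]
  have h1 := len_numP (kk m n)
  have h2 := len_uP m n σ
  have h3 := flat_le (List.range (kk m n + 1)) (tP m n σ R) _
    (fun t _ => len_tP m n σ R t hn)
  rw [List.length_range] at h3
  have h4 := len_difP (kk m n)
  omega

/-- The polynomials. -/
noncomputable def pK : Polynomial ℕ := 2 * Polynomial.X * (2 * (Polynomial.X * Polynomial.X) + 1)

noncomputable def pL : Polynomial ℕ :=
  pK + 1 + (Polynomial.X * Polynomial.X + ((pK + 1) * (2 * (Polynomial.X * Polynomial.X) + 1 + 1 +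
    (Polynomial.X * (Polynomial.X * (Polynomial.X * 2 + 1)) +
      ((2 * Polynomial.X) * Polynomial.X + ((2 * Polynomial.X) * 2 +
        12 * (2 * Polynomial.X) ^ 4)))) + (pK + 1 + pK * pK)))

lemma lb_le (m n : ℕ) : lb m n ≤ pL.eval (m + n) := by
  have e1 : ee m n = (m + n) * (m + n) := by unfold ee; ring
  have e2 : mx m n = 2 * ((m + n) * (m + n)) + 1 := by unfold mx; rw [e1]
  have e3 : mm m n ≤ 2 * (m + n) := by unfold mm; omega
  have e4 : kk m n ≤ 2 * (m + n) * (2 * ((m + n) * (m + n)) + 1) := by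
    unfold kk
    rw [e2]
    exact Nat.mul_le_mul_right _ e3
  have e5 : n ≤ m + n := Nat.le_add_left _ _
  have e6 : n + m = m + n := Nat.add_comm _ _
  unfold lb pL pK
  simp only [Polynomial.eval_add, Polynomial.eval_mul, Polynomial.eval_X, Polynomial.eval_one,
    Polynomial.eval_ofNat, Polynomial.eval_pow]
  rw [e2, e6]
  gcongr

theorem s_LENT : S_LENT :=
  ⟨pL, fun m n σ R hn => (len_prg m n σ R hn).trans (lb_le m n)⟩

end Pool.Agent.L7h97.TN
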