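import Pool.Agent.L7h65.TN.Stm
import Pool.Agent.H622R3.SM.T_FARKAS

set_option autoImplicit false

/-!
# Totally nonnegative matrices: the perturbed instances and the instance are equivalent
-/

namespace Pool.Agent.L7h97.TN

open Pool.Agent.NPC Pool.Agent.H558R2 Pool.Agent.H622R3.SM Pool.Agent.W920.FC Pool.Agent.L7h61.CH
open Pool.Agent.L7h65.TN
open Filter

variable {m n : ℕ}

lemma ee_pos (hn : 1 ≤ n) : 1 ≤ ee m n := by
  unfold ee
  exact Nat.mul_pos (by omega) (by omega)

lemma xp_self (a : ℕ) : xp m n a a = 2 * ee m n := by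
  unfold xp dst
  simp

lemma xp_le {a c : ℕ} (h : c ≠ a) : xp m n a c ≤ 2 * ee m n - 2 := by
  unfold xp
  have h1 : 1 ≤ dst a c := by unfold dst; omega
  have h2 : 1 ≤ dst a c * dst a c := Nat.mul_pos h1 h1
  omega

/-- The bound for the entries. -/
noncomputable def KK (W : Fin m → Fin n → ℝ) : ℝ :=
  ∑ c ∈ Finset.range (n + m), ∑ j, |uu W c j|

lemma KK_nonneg (W : Fin m → Fin n → ℝ) : 0 ≤ KK W :=
  Finset.sum_nonneg fun _ _ => Finset.sum_nonneg fun _ _ => abs_nonneg _

lemma rr_eq (W : Fin m → Fin n → ℝ) {T : ℝ} {a : ℕ} (ha : a < n + m) (j : Fin n) :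
    rr W T a j = T ^ (2 * ee m n) * uu W a j +
      ∑ c ∈ (Finset.range (n + m)).erase a, T ^ xp m n a c * uu W c j := by
  unfold rr
  rw [← Finset.add_sum_erase _ _ (Finset.mem_range.2 ha), xp_self]

lemma err_le (W : Fin m → Fin n → ℝ) {T : ℝ} (hT : 1 ≤ T) (a : ℕ) (j : Fin n) :
    |∑ c ∈ (Finset.range (n + m)).erase a, T ^ xp m n a c * uu W c j| ≤
      KK W * T ^ (2 * ee m n - 2) := by
  have hT0 : (0 : ℝ) ≤ T := zero_le_one.trans hT
  refine (Finset.abs_sum_le_sum_abs _ _).trans ?_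
  have h1 : ∀ c ∈ (Finset.range (n + m)).erase a, |T ^ xp m n a c * uu W c j| ≤
      T ^ (2 * ee m n - 2) * ∑ j, |uu W c j| := by
    intro c hc
    rw [abs_mul, abs_of_nonneg (pow_nonneg hT0 _)]
    exact mul_le_mul (pow_le_pow_right₀ hT (xp_le (Finset.ne_of_mem_erase hc)))
      (Finset.single_le_sum (f := fun j => |uu W c j|) (fun _ _ => abs_nonneg _)
        (Finset.mem_univ j)) (abs_nonneg _) (pow_nonneg hT0 _)
  refine (Finset.sum_le_sum h1).trans ?_
  rw [← Finset.mul_sum, mul_comm]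
  refine mul_le_mul_of_nonneg_right ?_ (pow_nonneg hT0 _)
  exact Finset.sum_le_sum_of_subset_of_nonneg (Finset.erase_subset _ _)
    fun _ _ _ => Finset.sum_nonneg fun _ _ => abs_nonneg _

/-- The product of a row of `R` and a vector. -/
lemma rr_dot (W : Fin m → Fin n → ℝ) {T : ℝ} (hT : 1 ≤ T) {a : ℕ} (ha : a < n + m)
    (x : Fin n → ℝ) :
    |rr W T a ⬝ᵥ x - T ^ (2 * ee m n) * (uu W a ⬝ᵥ x)| ≤
      KK W * (∑ j, |x j|) * T ^ (2 * ee m n - 2) := by
  have h1 : rr W T a ⬝ᵥ x - T ^ (2 * ee m n) * (uu W a ⬝ᵥ x) =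
      ∑ j, (∑ c ∈ (Finset.range (n + m)).erase a, T ^ xp m n a c * uu W c j) * x j := by
    simp only [dotProduct]
    rw [Finset.mul_sum, ← Finset.sum_sub_distrib]
    refine Finset.sum_congr rfl fun j _ => ?_
    rw [rr_eq W ha j]
    ring
  rw [h1]
  refine (Finset.abs_sum_le_sum_abs _ _).trans ?_
  have h2 : ∀ j ∈ Finset.univ, |(∑ c ∈ (Finset.range (n + m)).erase a,
      T ^ xp m n a c * uu W c j) * x j| ≤ KK W * T ^ (2 * ee m n - 2) * |x j| := by
    intro j _
    rw [abs_mul]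
    exact mul_le_mul_of_nonneg_right (err_le W hT a j) (abs_nonneg _)
  refine (Finset.sum_le_sum h2).trans ?_
  rw [← Finset.mul_sum]
  apply le_of_eq
  ring

/-- The rows of the box. -/
lemma uu_low (W : Fin m → Fin n → ℝ) (j : Fin n) (x : Fin n → ℝ) :
    uu W (n - 1 - j) ⬝ᵥ x = (-1) ^ (j : ℕ) * x j := by
  have hj := j.2
  simp only [dotProduct]
  rw [Finset.sum_eq_single j]
  · unfold uu
    rw [if_pos (by omega), if_pos (by omega)]
  · intro k _ hk
    have : (k : ℕ) ≠ j := fun h => hk (Fin.ext h)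
    unfold uu
    rw [if_pos (by omega), if_neg (by omega), zero_mul]
  · intro h
    exact absurd (Finset.mem_univ _) h

lemma uu_high (W : Fin m → Fin n → ℝ) (i : Fin m) : uu W (n + i) = W i := by
  ext j
  unfold uu
  have hi := i.2
  rw [if_neg (by omega), dif_pos (by omega)]
  have e : (⟨n + (i : ℕ) - n, by omega⟩ : Fin m) = i :=
    Fin.ext (show n + (i : ℕ) - n = i by omega)
  rw [e]

lemma ss_sq (σ : List Bool) (i : ℕ) : ss σ i * ss σ i = 1 := by
  unfold ss
  split_ifs <;> norm_num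

lemma ss_abs (σ : List Bool) (i : ℕ) : |ss σ i| = 1 := by
  unfold ss
  split_ifs <;> norm_num

/-- The row `2 n + i` of the instance. -/
def hi (i : Fin m) : Fin (mm m n) := ⟨n + n + i, by unfold mm; omega⟩

lemma AA_hi (σ : List Bool) (A : Fin m → Fin n → ℝ) {T : ℝ} (hT : 1 ≤ T) (i : Fin m)
    (x : Fin n → ℝ) :
    |AA σ A T (hi i) ⬝ᵥ x - T ^ (2 * ee m n) * (A i ⬝ᵥ x)| ≤
      KK (ww σ A) * (∑ j, |x j|) * T ^ (2 * ee m n - 2) := by
  have hi' := i.2
  have e1 : AA σ A T (hi i) = ss σ i • rr (ww σ A) T (n + i) := by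
    ext j
    unfold AA hi ngr psr ss
    simp only [Pi.smul_apply, smul_eq_mul]
    rw [if_neg (show ¬ (n + n + (i : ℕ) < n + n) by omega),
      if_neg (show ¬ (n + n + (i : ℕ) < n + n) by omega),
      show n + n + (i : ℕ) - (n + n) = i by omega, show n + n + (i : ℕ) - n = n + i by omega]
  have e2 : A i ⬝ᵥ x = ss σ i * (uu (ww σ A) (n + i) ⬝ᵥ x) := by
    rw [uu_high]
    simp only [dotProduct, ww]
    rw [Finset.mul_sum]
    refine Finset.sum_congr rfl fun j _ => ?_
    have := ss_sq σ i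
    linear_combination (-(A i j * x j)) * this
  rw [e1, e2, smul_dotProduct, smul_eq_mul]
  have h := rr_dot (ww σ A) hT (a := n + i) (by omega) x
  have e3 : ss σ i * (rr (ww σ A) T (n + i) ⬝ᵥ x) -
      T ^ (2 * ee m n) * (ss σ i * (uu (ww σ A) (n + i) ⬝ᵥ x)) =
      ss σ i * (rr (ww σ A) T (n + i) ⬝ᵥ x - T ^ (2 * ee m n) * (uu (ww σ A) (n + i) ⬝ᵥ x)) := by
    ring
  rw [e3, abs_mul, ss_abs, one_mul]
  exact h

lemma BB_hi (b : Fin m → ℝ) (T : ℝ) (i : Fin m) :
    BB n b T (hi i) = T ^ (2 * ee m n) * b i - T ^ (2 * ee m n - 1) := by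
  have hi' := i.2
  unfold BB hi
  simp only
  rw [if_neg (by omega), dif_pos (by omega)]
  have e : (⟨n + n + (i : ℕ) - (n + n), by omega⟩ : Fin m) = i :=
    Fin.ext (show n + n + (i : ℕ) - (n + n) = i by omega)
  rw [e]

/-- Every row of the instance is of one of the two kinds. -/
lemma row_cases (r : Fin (mm m n)) :
    ((r : ℕ) < n + n) ∨ ∃ i : Fin m, r = hi i := by
  have hr := r.2
  unfold mm at hr
  rcases lt_or_ge (r : ℕ) (n + n) with h | h
  · exact Or.inl h
  · exact Or.inr ⟨⟨r - (n + n), by omega⟩, Fin.ext (by simp [hi]; omega)⟩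

theorem s_LIM : S_LIM := by
  intro m n σ A b hn
  have hE := ee_pos (m := m) hn
  obtain ⟨E, hEe⟩ : ∃ E, ee m n = E := ⟨_, rfl⟩
  rw [hEe] at hE
  set K : ℝ := KK (ww σ A) with hK
  have hK0 : 0 ≤ K := KK_nonneg _
  constructor
  · rintro ⟨x, hx⟩
    obtain ⟨X, hX⟩ : ∃ X, ∑ j, |x j| = X := ⟨_, rfl⟩
    have hX0 : 0 ≤ X := hX ▸ Finset.sum_nonneg fun _ _ => abs_nonneg _
    obtain ⟨Y, hY⟩ : ∃ Y, ∑ c ∈ Finset.range (n + m), |uu (ww σ A) c ⬝ᵥ x| = Y := ⟨_, rfl⟩
    have hY0 : 0 ≤ Y := hY ▸ Finset.sum_nonneg fun _ _ => abs_nonneg _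
    filter_upwards [eventually_ge_atTop (1 + Y + K * X)] with T hT
    have hKX : 0 ≤ K * X := mul_nonneg hK0 hX0
    have hT1 : 1 ≤ T := by linarith
    have hT0 : (0 : ℝ) ≤ T := by linarith
    have p1 : T ^ (2 * E - 1) = T ^ (2 * E - 2) * T := by
      rw [← pow_succ]; congr 1; omega
    have p2 : T ^ (2 * E) = T ^ (2 * E - 1) * T := by
      rw [← pow_succ]; congr 1; omega
    have p3 : T ^ (2 * E + 1) = T ^ (2 * E) * T := pow_succ _ _
    have q2 : 0 ≤ T ^ (2 * E - 2) := pow_nonneg hT0 _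
    have q1 : 0 ≤ T ^ (2 * E - 1) := pow_nonneg hT0 _
    have q0 : 0 ≤ T ^ (2 * E) := pow_nonneg hT0 _
    have q3 : T ^ (2 * E - 2) ≤ T ^ (2 * E) := pow_le_pow_right₀ hT1 (by omega)
    refine ⟨x, fun r => ?_⟩
    rcases row_cases r with hr | ⟨i, rfl⟩
    · have ha : psr n r < n + m := by
        unfold psr
        rw [if_pos hr]
        omega
      have h := rr_dot (ww σ A) hT1 ha x
      rw [hEe, hX] at h
      have e1 : BB n b T r = - T ^ (2 * E + 1) := by
        unfold BB mx
        rw [if_pos hr, hEe]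
      have h2 : |uu (ww σ A) (psr n r) ⬝ᵥ x| ≤ Y := by
        rw [← hY]
        exact Finset.single_le_sum (f := fun c => |uu (ww σ A) c ⬝ᵥ x|)
          (fun _ _ => abs_nonneg _) (Finset.mem_range.2 ha)
      have h3 : |rr (ww σ A) T (psr n r) ⬝ᵥ x| ≤ T ^ (2 * E + 1) := by
        have h4 : |rr (ww σ A) T (psr n r) ⬝ᵥ x| ≤
            |rr (ww σ A) T (psr n r) ⬝ᵥ x - T ^ (2 * E) * (uu (ww σ A) (psr n r) ⬝ᵥ x)| +
              |T ^ (2 * E) * (uu (ww σ A) (psr n r) ⬝ᵥ x)| := by
          have := abs_add_le (rr (ww σ A) T (psr n r) ⬝ᵥ x -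
            T ^ (2 * E) * (uu (ww σ A) (psr n r) ⬝ᵥ x))
            (T ^ (2 * E) * (uu (ww σ A) (psr n r) ⬝ᵥ x))
          rwa [sub_add_cancel] at this
        rw [abs_mul (T ^ (2 * E)), abs_of_nonneg q0] at h4
        have h5 : T ^ (2 * E) * |uu (ww σ A) (psr n r) ⬝ᵥ x| ≤ T ^ (2 * E) * Y :=
          mul_le_mul_of_nonneg_left h2 q0
        have h6 : K * X * T ^ (2 * E - 2) ≤ K * X * T ^ (2 * E) :=
          mul_le_mul_of_nonneg_left q3 hKX
        have h7 : T ^ (2 * E) * (Y + K * X) ≤ T ^ (2 * E) * T :=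
          mul_le_mul_of_nonneg_left (by linarith) q0
        rw [p3]
        nlinarith
      have e2 : |AA σ A T r ⬝ᵥ x| ≤ T ^ (2 * E + 1) := by
        have e3 : AA σ A T r = (if ngr n σ r = true then (-1 : ℝ) else 1) •
            rr (ww σ A) T (psr n r) := by
          ext j
          unfold AA
          simp
        rw [e3, smul_dotProduct, smul_eq_mul, abs_mul]
        have : |(if ngr n σ r = true then (-1 : ℝ) else 1)| = 1 := by
          split_ifs <;> norm_num
        rw [this, one_mul]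
        exact h3
      rw [e1]
      linarith [(abs_le.1 e2).1]
    · have h := AA_hi σ A hT1 i x
      rw [hEe, hX, ← hK] at h
      rw [BB_hi, hEe]
      have h1 := (abs_le.1 h).1
      have h2 : T ^ (2 * E) * b i ≤ T ^ (2 * E) * (A i ⬝ᵥ x) :=
        mul_le_mul_of_nonneg_left (hx i) q0
      have h3 : K * X * T ^ (2 * E - 2) ≤ T ^ (2 * E - 1) := by
        rw [p1, mul_comm]
        exact mul_le_mul_of_nonneg_left (by linarith) q2
      linarith
  · intro hev
    by_contra hinf
    have hnf : ¬ Feas ((A, b) : Inp m n) := by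
      intro hf
      apply hinf
      obtain ⟨x, hx⟩ := hf
      exact ⟨x, fun i => by simpa [dotProduct, Matrix.mulVec] using hx i⟩
    obtain ⟨y, hy0, hyA, hyb⟩ := (t_FARKAS m n (A, b)).1 hnf
    simp only at hyA hyb
    set S : ℝ := ∑ i, y i with hS
    have hS0 : 0 ≤ S := Finset.sum_nonneg fun i _ => hy0 i
    set C : ℝ := 1 + 2 * n * K with hC
    have hn0 : (0 : ℝ) ≤ n := Nat.cast_nonneg _
    have hC0 : 0 ≤ C := by positivity
    set Q : ℝ := ∑ i, y i * b i with hQ
    obtain ⟨T, ⟨x, hx⟩, hT⟩ := (hev.and (eventually_ge_atTop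
      (1 + 2 * n * K + (C * S + 1) / Q))).exists
    have hCQ : 0 < (C * S + 1) / Q := by positivity
    have hnK : 0 ≤ 2 * n * K := by positivity
    have hT1 : 1 ≤ T := by linarith
    have hT0 : (0 : ℝ) < T := by linarith
    have p1 : T ^ (2 * E - 1) = T ^ (2 * E - 2) * T := by
      rw [← pow_succ]; congr 1; omega
    have p2 : T ^ (2 * E) = T ^ (2 * E - 2) * T * T := by
      rw [← pow_succ, ← pow_succ]; congr 1; omega
    have p3 : T ^ (2 * E + 1) = T ^ (2 * E) * T := pow_succ _ _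
    have q2 : 0 < T ^ (2 * E - 2) := pow_pos hT0 _
    obtain ⟨X, hX⟩ : ∃ X, ∑ j, |x j| = X := ⟨_, rfl⟩
    have hX0 : 0 ≤ X := hX ▸ Finset.sum_nonneg fun _ _ => abs_nonneg _
    -- the box
    have hbox : ∀ j : Fin n, |x j| * T ^ (2 * E) ≤ T ^ (2 * E + 1) + K * X * T ^ (2 * E - 2) := by
      intro j
      have hj := j.2
      set a := n - 1 - (j : ℕ) with ha
      have hx1 := hx ⟨2 * a, by unfold mm; omega⟩
      have hx2 := hx ⟨2 * a + 1, by unfold mm; omega⟩
      have e1 : BB n b T ⟨2 * a, by unfold mm; omega⟩ = - T ^ (2 * E + 1) := by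
        unfold BB mx
        rw [if_pos (show 2 * a < n + n by omega), hEe]
      have e2 : BB n b T ⟨2 * a + 1, by unfold mm; omega⟩ = - T ^ (2 * E + 1) := by
        unfold BB mx
        rw [if_pos (show 2 * a + 1 < n + n by omega), hEe]
      have e3 : AA σ A T ⟨2 * a, by unfold mm; omega⟩ = rr (ww σ A) T a := by
        ext k
        unfold AA ngr psr
        simp only
        rw [if_pos (show 2 * a < n + n by omega), if_pos (show 2 * a < n + n by omega),
          show 2 * a / 2 = a by omega]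
        rw [if_neg (by simp), one_mul]
      have e4 : AA σ A T ⟨2 * a + 1, by unfold mm; omega⟩ = - rr (ww σ A) T a := by
        ext k
        unfold AA ngr psr
        simp only
        rw [if_pos (show 2 * a + 1 < n + n by omega), if_pos (show 2 * a + 1 < n + n by omega),
          show (2 * a + 1) / 2 = a by omega]
        rw [if_pos (by simp), Pi.neg_apply]
        ring
      rw [e1, e3] at hx1
      rw [e2, e4, neg_dotProduct] at hx2
      have h := rr_dot (ww σ A) hT1 (a := a) (by omega) x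
      rw [hEe, hX, ← hK, ha, uu_low] at h
      have h1 := abs_le.1 h
      rw [← ha] at h1
      have h2 : |(-1) ^ (j : ℕ) * x j| = |x j| := by
        rw [abs_mul, abs_pow, abs_neg, abs_one, one_pow, one_mul]
      have h3 : |T ^ (2 * E) * ((-1) ^ (j : ℕ) * x j)| ≤
          T ^ (2 * E + 1) + K * X * T ^ (2 * E - 2) := by
        rw [abs_le]
        constructor <;> linarith [h1.1, h1.2]
      rw [abs_mul, h2, abs_of_nonneg (pow_nonneg hT0.le _)] at h3
      linarith
    have hsum : X * T ^ (2 * E) ≤ n * (T ^ (2 * E + 1) + K * X * T ^ (2 * E - 2)) := by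
      rw [← hX, Finset.sum_mul, hX]
      refine (Finset.sum_le_sum fun j _ => hbox j).trans ?_
      rw [Finset.sum_const, Finset.card_univ, Fintype.card_fin, nsmul_eq_mul]
    have hX2 : X ≤ 2 * n * T := by
      have h1 : X * (T * T) ≤ n * (T * T * T) + n * K * X := by
        rw [p3, p2] at hsum
        have h2 : (X * (T * T)) * T ^ (2 * E - 2) ≤
            (n * (T * T * T) + n * K * X) * T ^ (2 * E - 2) := by
          calc _ = X * (T ^ (2 * E - 2) * T * T) := by ring
            _ ≤ _ := hsum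
            _ = _ := by ring
        exact le_of_mul_le_mul_right h2 q2
      have h2 : 2 * n * K ≤ T := by linarith
      have h3 : 2 * n * K * X ≤ T * T * X := by
        have : T ≤ T * T := by nlinarith
        exact mul_le_mul_of_nonneg_right (h2.trans this) hX0
      have h4 : X * (T * T) ≤ (2 * n * T) * (T * T) := by nlinarith
      exact le_of_mul_le_mul_right h4 (by positivity)
    have hrow : ∀ i, b i ≤ A i ⬝ᵥ x + C / T := by
      intro i
      have h := AA_hi σ A hT1 i x
      rw [hEe, hX, ← hK] at h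
      have h1 := hx (hi i)
      rw [BB_hi, hEe] at h1
      have h2 := (abs_le.1 h).2
      have h3 : T ^ (2 * E) * b i ≤ T ^ (2 * E) * (A i ⬝ᵥ x) + T ^ (2 * E - 1) +
          K * X * T ^ (2 * E - 2) := by linarith
      rw [p1, p2] at h3
      have h4 : K * X ≤ 2 * n * K * T := by
        calc K * X ≤ K * (2 * n * T) := mul_le_mul_of_nonneg_left hX2 hK0
          _ = _ := by ring
      have h5 : (T * T * b i) * T ^ (2 * E - 2) ≤
          (T * T * (A i ⬝ᵥ x) + C * T) * T ^ (2 * E - 2) := by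
        have h6 : K * X * T ^ (2 * E - 2) ≤ 2 * n * K * T * T ^ (2 * E - 2) :=
          mul_le_mul_of_nonneg_right h4 q2.le
        calc (T * T * b i) * T ^ (2 * E - 2) = T ^ (2 * E - 2) * T * T * b i := by ring
          _ ≤ _ := h3
          _ ≤ T ^ (2 * E - 2) * T * T * (A i ⬝ᵥ x) + T ^ (2 * E - 2) * T +
              2 * n * K * T * T ^ (2 * E - 2) := by linarith
          _ = _ := by rw [hC]; ring
      have h6 : T * T * b i ≤ T * T * (A i ⬝ᵥ x) + C * T := le_of_mul_le_mul_right h5 q2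
      have h7 : T * T * b i ≤ T * T * (A i ⬝ᵥ x + C / T) := by
        have : T * T * (C / T) = C * T := by field_simp
        rw [mul_add, this]
        exact h6
      exact le_of_mul_le_mul_left h7 (by positivity)
    have h1 : Q ≤ ∑ i, y i * (A i ⬝ᵥ x + C / T) :=
      Finset.sum_le_sum fun i _ => mul_le_mul_of_nonneg_left (hrow i) (hy0 i)
    have h2 : ∑ i, y i * (A i ⬝ᵥ x + C / T) = S * (C / T) := by
      simp only [mul_add, Finset.sum_add_distrib]
      rw [← Finset.sum_mul]
      have : ∑ i, y i * (A i ⬝ᵥ x) = 0 := by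
        simp only [dotProduct, Finset.mul_sum]
        rw [Finset.sum_comm]
        refine Finset.sum_eq_zero fun j _ => ?_
        have := hyA j
        calc ∑ i, y i * (A i j * x j) = (∑ i, y i * A i j) * x j := by
              rw [Finset.sum_mul]
              exact Finset.sum_congr rfl fun i _ => by ring
          _ = 0 := by rw [this, zero_mul]
      rw [this, zero_add]
    rw [h2] at h1
    have h3 : Q * T ≤ S * C := by
      have : S * (C / T) * T = S * C := by field_simp
      calc Q * T ≤ S * (C / T) * T := mul_le_mul_of_nonneg_right h1 hT0.le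
        _ = _ := this
    have h4 : C * S + 1 ≤ Q * T := by
      have h5 : (C * S + 1) / Q ≤ T := by linarith
      rw [div_le_iff₀ hyb] at h5
      linarith
    linarith

end Pool.Agent.L7h97.TN
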